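import Mathlib

/-!
# Lemma D (project NQ): a set which is closed under few changes is small

`φ b : E → Y` are homomorphisms, `U x` is the set of the `b` which are allowed at `x`. If for each `x` in `G` at least `c`
elements `b` are allowed, while at most `c` arrows `x - φ b e → x` with `x - φ b e` in `G`, `b` allowed there, `e` outside a
small set `Sm`, end in `x`, then `G` is small.
-/

set_option autoImplicit false
set_option linter.unusedSectionVars false

namespace Pool.Agent.Helper84.NQ

open Finset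

variable {Y E T : Type} [AddCommGroup Y] [Fintype Y] [DecidableEq Y] [AddCommGroup E] [Fintype E] [DecidableEq E]
  [Fintype T] [DecidableEq T]

/-- The number of the changes `e` which lead from `x` into `G`. -/
def num (φ : E →+ Y) (G : Finset Y) (x : Y) : ℕ := (univ.filter (fun e => x + φ e ∈ G)).card

/-- The points of `G` from which few changes lead into `G` are few. -/
theorem card_few (φ : E →+ Y) (G : Finset Y) (M : ℕ) :
    (G.filter (fun x => num φ G x ≤ M)).card * Fintype.card E ≤ M * Fintype.card Y := by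
  classical
  set G' := G.filter (fun x => num φ G x ≤ M) with hG'
  have h1 : (G' ×ˢ (univ : Finset E)).card ≤ M * (univ : Finset Y).card := by
    refine card_le_mul_card_image_of_maps_to (f := fun p : Y × E => p.1 + φ p.2) (fun _ _ => mem_univ _) M ?_
    intro y _
    rcases ((G' ×ˢ (univ : Finset E)).filter (fun p => p.1 + φ p.2 = y)).eq_empty_or_nonempty with h | ⟨p0, hp0⟩
    · rw [h, card_empty]
      exact Nat.zero_le _
    · obtain ⟨hp1, hp2⟩ := mem_filter.1 hp0
      have hx0 := (mem_product.1 hp1).1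
      refine le_trans ?_ (mem_filter.1 hx0).2
      unfold num
      refine card_le_card_of_injOn (fun p => p0.2 - p.2) ?_ ?_
      · intro p hp
        obtain ⟨h3, h4⟩ := mem_filter.1 (mem_coe.1 hp)
        refine mem_coe.2 (mem_filter.2 ⟨mem_univ _, ?_⟩)
        have h5 : p0.1 + φ (p0.2 - p.2) = p.1 := by
          rw [map_sub, ← add_sub_assoc, hp2, ← h4, add_sub_cancel_right]
        rw [h5]
        exact (mem_filter.1 (mem_product.1 h3).1).1
      · intro p hp p' hp' h
        obtain ⟨h3, h4⟩ := mem_filter.1 (mem_coe.1 hp)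
        obtain ⟨h3', h4'⟩ := mem_filter.1 (mem_coe.1 hp')
        have h5 : p.2 = p'.2 := sub_right_injective h
        have h6 : p.1 = p'.1 := by
          rw [h5] at h4
          exact add_right_cancel (h4.trans h4'.symm)
        exact Prod.ext h6 h5
  rwa [card_product, card_univ, card_univ] at h1

/-- Lemma D. -/
theorem lemD (φ : T → E →+ Y) (G : Finset Y) (U : Y → Finset T) (Sm : Finset E) (c : ℕ)
    (hU : ∀ x ∈ G, c ≤ (U x).card)
    (hIn : ∀ x ∈ G, (univ.filter (fun p : E × T => p.1 ∉ Sm ∧ x - φ p.2 p.1 ∈ G ∧ p.2 ∈ U (x - φ p.2 p.1))).card ≤ c) :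
    G.card * c * Fintype.card E ≤ 4 * (Sm.card + 1) * (Fintype.card T * Fintype.card Y) := by
  classical
  -- the pairs
  set P : Finset (Y × T) := univ.filter (fun p => p.1 ∈ G ∧ p.2 ∈ U p.1) with hP
  have hmP : ∀ p, p ∈ P ↔ p.1 ∈ G ∧ p.2 ∈ U p.1 := fun p => by simp [hP]
  have hPc : G.card * c ≤ P.card := by
    have h1 : P.card = ∑ x ∈ G, (P.filter (fun p => p.1 = x)).card :=
      card_eq_sum_card_fiberwise fun p hp => (hmP p).1 hp |>.1
    rw [h1, ← smul_eq_mul]
    refine card_nsmul_le_sum _ _ _ fun x hx => (hU x hx).trans ?_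
    refine card_le_card_of_injOn (fun b => (x, b)) (fun b hb => ?_) (fun b _ b' _ h => congrArg Prod.snd h)
    exact mem_coe.2 (mem_filter.2 ⟨(hmP _).2 ⟨hx, hb⟩, rfl⟩)
  -- the arrows
  have hsum : ∑ p ∈ P, num (φ p.2) G p.1 ≤ P.card * (Sm.card + 1) := by
    have h1 : ∀ p : Y × T, num (φ p.2) G p.1 ≤ Sm.card + (univ.filter (fun e => e ∉ Sm ∧ p.1 + φ p.2 e ∈ G)).card := by
      intro p
      unfold num
      refine le_trans (card_le_card ?_) (card_union_le _ _)
      intro e he
      have he' := (mem_filter.1 he).2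
      by_cases h : e ∈ Sm
      · exact mem_union_left _ h
      · exact mem_union_right _ (mem_filter.2 ⟨mem_univ _, h, he'⟩)
    have h2 : ∑ p ∈ P, (univ.filter (fun e => e ∉ Sm ∧ p.1 + φ p.2 e ∈ G)).card ≤ P.card := by
      set R : Finset ((Y × T) × E) := (P ×ˢ (univ : Finset E)).filter (fun r => r.2 ∉ Sm ∧ r.1.1 + φ r.1.2 r.2 ∈ G)
        with hR
      have h3 : ∑ p ∈ P, (univ.filter (fun e => e ∉ Sm ∧ p.1 + φ p.2 e ∈ G)).card = R.card := by
        rw [card_eq_sum_card_fiberwise (f := fun r : (Y × T) × E => r.1) (t := P)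
          (fun r hr => (mem_product.1 (mem_filter.1 (mem_coe.1 hr)).1).1)]
        refine sum_congr rfl fun p hp => ?_
        refine card_bij (fun e _ => (p, e)) (fun e he => ?_) (fun e _ e' _ h => congrArg Prod.snd h) (fun r hr => ?_)
        · exact mem_filter.2 ⟨mem_filter.2 ⟨mem_product.2 ⟨hp, mem_univ _⟩, (mem_filter.1 he).2⟩, rfl⟩
        · obtain ⟨h4, h5⟩ := mem_filter.1 hr
          obtain ⟨-, h6⟩ := mem_filter.1 h4
          subst h5
          exact ⟨r.2, mem_filter.2 ⟨mem_univ _, h6⟩, rfl⟩
      rw [h3]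
      refine le_trans ?_ hPc
      rw [card_eq_sum_card_fiberwise (f := fun r : (Y × T) × E => r.1.1 + φ r.1.2 r.2) (t := G)
        (fun r hr => (mem_filter.1 (mem_coe.1 hr)).2.2)]
      rw [mul_comm, ← smul_eq_mul, smul_eq_mul, mul_comm, ← smul_eq_mul]
      refine sum_le_card_nsmul _ _ _ fun x hx => le_trans ?_ (hIn x hx)
      refine card_le_card_of_injOn (fun r => (r.2, r.1.2)) ?_ ?_
      · intro r hr
        obtain ⟨h4, h5⟩ := mem_filter.1 (mem_coe.1 hr)
        obtain ⟨h6, h7, h8⟩ := mem_filter.1 h4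
        have h9 := (hmP _).1 (mem_product.1 h6).1
        have h10 : x - φ r.1.2 r.2 = r.1.1 := by rw [← h5, add_sub_cancel_right]
        refine mem_coe.2 (mem_filter.2 ⟨mem_univ _, h7, ?_, ?_⟩)
        · change x - φ r.1.2 r.2 ∈ G
          rw [h10]
          exact h9.1
        · change r.1.2 ∈ U (x - φ r.1.2 r.2)
          rw [h10]
          exact h9.2
      · intro r hr r' hr' h
        have h5 := (mem_filter.1 (mem_coe.1 hr)).2
        have h5' := (mem_filter.1 (mem_coe.1 hr')).2
        obtain ⟨e1, e2⟩ : r.2 = r'.2 ∧ r.1.2 = r'.1.2 := Prod.ext_iff.1 h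
        have e3 : r.1.1 = r'.1.1 := by
          have h6 := h5.trans h5'.symm
          rw [e1, e2] at h6
          exact add_right_cancel h6
        exact Prod.ext (Prod.ext e3 e2) e1
    calc ∑ p ∈ P, num (φ p.2) G p.1
        ≤ ∑ p ∈ P, (Sm.card + (univ.filter (fun e => e ∉ Sm ∧ p.1 + φ p.2 e ∈ G)).card) := sum_le_sum fun p _ => h1 p
      _ = P.card * Sm.card + ∑ p ∈ P, (univ.filter (fun e => e ∉ Sm ∧ p.1 + φ p.2 e ∈ G)).card := by
          rw [sum_add_distrib, sum_const, smul_eq_mul]
      _ ≤ P.card * Sm.card + P.card := Nat.add_le_add_left h2 _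
      _ = P.card * (Sm.card + 1) := by ring
  -- half of the pairs
  set M := 2 * (Sm.card + 1) with hM
  set P' := P.filter (fun p => num (φ p.2) G p.1 ≤ M) with hP'
  have hhalf : P.card ≤ 2 * P'.card := by
    set P'' := P.filter (fun p => ¬ num (φ p.2) G p.1 ≤ M) with hP''
    have h1 : P'.card + P''.card = P.card := card_filter_add_card_filter_not _
    have h2 : P''.card * M ≤ P.card * (Sm.card + 1) := by
      refine le_trans ?_ hsum
      calc P''.card * M ≤ ∑ p ∈ P'', num (φ p.2) G p.1 := by
            rw [← smul_eq_mul]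
            exact card_nsmul_le_sum _ _ _ fun p hp => (not_le.1 (mem_filter.1 hp).2).le
        _ ≤ ∑ p ∈ P, num (φ p.2) G p.1 := sum_le_sum_of_subset (filter_subset _ _)
    have h3 : P''.card * 2 ≤ P.card := by
      rw [hM, ← mul_assoc] at h2
      exact Nat.le_of_mul_le_mul_right h2 (Nat.succ_pos _)
    omega
  have hfin : P'.card * Fintype.card E ≤ Fintype.card T * (M * Fintype.card Y) := by
    have h1 : P'.card ≤ ∑ b : T, (G.filter (fun x => num (φ b) G x ≤ M)).card := by
      rw [card_eq_sum_card_fiberwise (f := fun p : Y × T => p.2) (t := univ) (fun _ _ => mem_univ _)]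
      refine sum_le_sum fun b _ => ?_
      refine card_le_card_of_injOn (fun p => p.1) ?_ ?_
      · intro p hp
        obtain ⟨h4, h5⟩ := mem_filter.1 (mem_coe.1 hp)
        obtain ⟨h6, h7⟩ := mem_filter.1 h4
        subst h5
        exact mem_coe.2 (mem_filter.2 ⟨((hmP _).1 h6).1, h7⟩)
      · intro p hp p' hp' h
        have h5 := (mem_filter.1 (mem_coe.1 hp)).2
        have h5' := (mem_filter.1 (mem_coe.1 hp')).2
        exact Prod.ext h (h5.trans h5'.symm)
    calc P'.card * Fintype.card E ≤ (∑ b : T, (G.filter (fun x => num (φ b) G x ≤ M)).card) * Fintype.card E :=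
          Nat.mul_le_mul_right _ h1
      _ = ∑ b : T, (G.filter (fun x => num (φ b) G x ≤ M)).card * Fintype.card E := by rw [sum_mul]
      _ ≤ ∑ _b : T, M * Fintype.card Y := sum_le_sum fun b _ => card_few (φ b) G M
      _ = Fintype.card T * (M * Fintype.card Y) := by rw [sum_const, card_univ, smul_eq_mul]
  calc G.card * c * Fintype.card E ≤ P.card * Fintype.card E := Nat.mul_le_mul_right _ hPc
    _ ≤ 2 * P'.card * Fintype.card E := Nat.mul_le_mul_right _ hhalf
    _ = 2 * (P'.card * Fintype.card E) := by ring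
    _ ≤ 2 * (Fintype.card T * (M * Fintype.card Y)) := Nat.mul_le_mul_left _ hfin
    _ = 4 * (Sm.card + 1) * (Fintype.card T * Fintype.card Y) := by rw [hM]; ring

end Pool.Agent.Helper84.NQ
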