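import Pool.Agent.Helper84.PH.Perms

/-!
# Permutations for which a quarter of the nodes has nearly all nodes as children (project NQ, Q7)
-/

set_option autoImplicit false

namespace Pool.Agent.Helper84.NQ

open Finset
open Pool.Agent.Helper84.PH (into mem_into card_into)

theorem into_le (M a : ℕ) (hM : 1 ≤ M) (ha : 1 ≤ a) (X Q : Finset (Fin (M ^ 2 * a))) (hX : M ^ 2 * a ≤ 4 * X.card)
    (hQ : Q.card = M ^ 2 * a - a) :
    ((into Q X).card : ℝ) ^ (6 * M ^ 2) ≤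
      Real.exp (-(3 / 2 * (M ^ 2 * a : ℕ))) * ((M ^ 2 * a).factorial : ℝ) ^ (6 * M ^ 2) := by
  have hM2 : 1 ≤ M ^ 2 := Nat.one_le_pow _ _ hM
  have hMR : (0 : ℝ) < (M : ℝ) ^ 2 := by positivity
  have haR : (0 : ℝ) < (a : ℝ) := by exact_mod_cast ha
  have h1 := card_into Q X
  rw [hQ] at h1
  have h2 : ((M ^ 2 * a : ℕ) : ℝ) ^ X.card * ((into Q X).card : ℝ) ≤
      ((M ^ 2 * a - a : ℕ) : ℝ) ^ X.card * ((M ^ 2 * a).factorial : ℝ) := by exact_mod_cast h1
  have h3 : ((M ^ 2 * a - a : ℕ) : ℝ) = (M ^ 2 * a : ℕ) * (1 - 1 / (M : ℝ) ^ 2) := by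
    rw [Nat.cast_sub (Nat.le_mul_of_pos_left a (by omega))]
    push_cast
    field_simp
  have hn : (0 : ℝ) < ((M ^ 2 * a : ℕ) : ℝ) := by push_cast; positivity
  have hx0 : (0 : ℝ) ≤ 1 - 1 / (M : ℝ) ^ 2 := by
    have : 1 / (M : ℝ) ^ 2 ≤ 1 := by
      rw [div_le_one hMR]
      exact_mod_cast hM2
    linarith
  rw [h3, mul_pow, mul_assoc] at h2
  have h4 : ((into Q X).card : ℝ) ≤ (1 - 1 / (M : ℝ) ^ 2) ^ X.card * ((M ^ 2 * a).factorial : ℝ) :=
    le_of_mul_le_mul_left h2 (by positivity)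
  have h5 : (1 - 1 / (M : ℝ) ^ 2) ^ M ^ 2 ≤ Real.exp (-1) := by
    calc (1 - 1 / (M : ℝ) ^ 2) ^ M ^ 2 ≤ (Real.exp (-(1 / (M : ℝ) ^ 2))) ^ M ^ 2 :=
          pow_le_pow_left₀ hx0 (by linarith [Real.add_one_le_exp (-(1 / (M : ℝ) ^ 2))]) _
      _ = Real.exp (-1) := by
          rw [← Real.exp_nat_mul]
          congr 1
          push_cast
          field_simp
  calc ((into Q X).card : ℝ) ^ (6 * M ^ 2)
      ≤ ((1 - 1 / (M : ℝ) ^ 2) ^ X.card * ((M ^ 2 * a).factorial : ℝ)) ^ (6 * M ^ 2) :=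
        pow_le_pow_left₀ (Nat.cast_nonneg _) h4 _
    _ = ((1 - 1 / (M : ℝ) ^ 2) ^ M ^ 2) ^ (6 * X.card) * ((M ^ 2 * a).factorial : ℝ) ^ (6 * M ^ 2) := by
        rw [mul_pow, ← pow_mul, ← pow_mul]
        congr 2
        ring
    _ ≤ (Real.exp (-1)) ^ (6 * X.card) * ((M ^ 2 * a).factorial : ℝ) ^ (6 * M ^ 2) := by
        gcongr
    _ ≤ Real.exp (-(3 / 2 * (M ^ 2 * a : ℕ))) * ((M ^ 2 * a).factorial : ℝ) ^ (6 * M ^ 2) := by
        refine mul_le_mul_of_nonneg_right ?_ (by positivity)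
        rw [← Real.exp_nat_mul]
        refine Real.exp_le_exp.2 ?_
        have : ((M ^ 2 * a : ℕ) : ℝ) ≤ 4 * X.card := by exact_mod_cast hX
        push_cast at this ⊢
        linarith

/-- Q7: the permutations. -/
theorem exists_perms (M a : ℕ) (hM : 1 ≤ M) (ha : 1 ≤ a) :
    ∃ g : Fin (6 * M ^ 2) → Equiv.Perm (Fin (M ^ 2 * a)), ∀ X : Finset (Fin (M ^ 2 * a)),
      M ^ 2 * a ≤ 4 * X.card →
        M ^ 2 * a - a ≤ (univ.filter (fun v => ∃ s, ∃ u ∈ X, g s u = v)).card := by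
  classical
  by_contra hcon
  push Not at hcon
  set N := M ^ 2 * a with hN
  have hM2 : 1 ≤ M ^ 2 := Nat.one_le_pow _ _ hM
  have hNpos : 1 ≤ N := Nat.mul_pos hM2 ha
  set I : Finset (Finset (Fin N) × Finset (Fin N)) := univ.filter (fun p => N ≤ 4 * p.1.card ∧ p.2.card = N - a)
    with hI
  have hcover : (univ : Finset (Fin (6 * M ^ 2) → Equiv.Perm (Fin N))) ⊆
      I.biUnion (fun p => Fintype.piFinset (fun _ : Fin (6 * M ^ 2) => into p.2 p.1)) := by
    intro g _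
    obtain ⟨X, hX, hlt⟩ := hcon g
    obtain ⟨Q, hQ, -, hQc⟩ := exists_subsuperset_card_eq
      (subset_univ (univ.filter (fun v => ∃ s, ∃ u ∈ X, g s u = v))) hlt.le
      (by rw [card_univ, Fintype.card_fin]; omega)
    rw [mem_biUnion]
    refine ⟨(X, Q), mem_filter.2 ⟨mem_univ _, hX, hQc⟩, ?_⟩
    rw [Fintype.mem_piFinset]
    intro s
    exact mem_into.2 fun u hu => hQ (mem_filter.2 ⟨mem_univ _, s, u, hu, rfl⟩)
  have h1 := (card_le_card hcover).trans card_biUnion_le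
  have hu : (univ : Finset (Fin (6 * M ^ 2) → Equiv.Perm (Fin N))).card = N.factorial ^ (6 * M ^ 2) := by
    rw [card_univ, Fintype.card_fun, Fintype.card_perm, Fintype.card_fin, Fintype.card_fin]
  rw [hu] at h1
  have h2 : ((N.factorial : ℝ)) ^ (6 * M ^ 2) ≤
      (4 : ℝ) ^ N * (Real.exp (-(3 / 2 * (N : ℝ))) * (N.factorial : ℝ) ^ (6 * M ^ 2)) := by
    have h3 : ((N.factorial : ℝ)) ^ (6 * M ^ 2) ≤
        ∑ p ∈ I, (((Fintype.piFinset (fun _ : Fin (6 * M ^ 2) => into p.2 p.1)).card : ℕ) : ℝ) := by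
      exact_mod_cast h1
    refine h3.trans ?_
    have h4 : ∀ p ∈ I, (((Fintype.piFinset (fun _ : Fin (6 * M ^ 2) => into p.2 p.1)).card : ℕ) : ℝ) ≤
        Real.exp (-(3 / 2 * (N : ℝ))) * (N.factorial : ℝ) ^ (6 * M ^ 2) := by
      intro p hp
      obtain ⟨-, h5, h6⟩ := mem_filter.1 hp
      rw [Fintype.card_piFinset]
      simp only [prod_const, card_univ, Fintype.card_fin]
      push_cast
      exact into_le M a hM ha p.1 p.2 h5 h6
    refine (sum_le_sum h4).trans ?_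
    rw [sum_const, nsmul_eq_mul]
    refine mul_le_mul_of_nonneg_right ?_ (by positivity)
    have h7 : I.card ≤ 4 ^ N := by
      calc I.card ≤ Fintype.card (Finset (Fin N) × Finset (Fin N)) := card_le_univ _
        _ = 4 ^ N := by
            rw [Fintype.card_prod, Fintype.card_finset, Fintype.card_fin, ← mul_pow]
            norm_num
    exact_mod_cast h7
  have hfac : (0 : ℝ) < (N.factorial : ℝ) ^ (6 * M ^ 2) := by positivity
  have h8 : (4 : ℝ) ^ N * Real.exp (-(3 / 2 * (N : ℝ))) < 1 := by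
    have h9 : Real.exp (-(3 / 2 * (N : ℝ))) = (Real.exp (-(3 / 2))) ^ N := by
      rw [← Real.exp_nat_mul]
      congr 1
      ring
    rw [h9, ← mul_pow]
    refine pow_lt_one₀ (by positivity) ?_ (by omega)
    have h10 : (4 : ℝ) < Real.exp (3 / 2) := by
      have h11 : (16 : ℝ) < Real.exp (3 / 2) ^ 2 := by
        rw [← Real.exp_nat_mul]
        have h12 : ((2 : ℕ) : ℝ) * (3 / 2) = ((3 : ℕ) : ℝ) * 1 := by norm_num
        rw [h12, Real.exp_nat_mul]
        have h13 := Real.exp_one_gt_d9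
        calc (16 : ℝ) < (2.7182818283 : ℝ) ^ 3 := by norm_num
          _ ≤ Real.exp 1 ^ 3 := pow_le_pow_left₀ (by norm_num) h13.le 3
      nlinarith [Real.exp_pos (3 / 2 : ℝ)]
    rw [Real.exp_neg, ← div_eq_mul_inv, div_lt_one (Real.exp_pos _)]
    exact h10
  have h14 : (4 : ℝ) ^ N * (Real.exp (-(3 / 2 * (N : ℝ))) * (N.factorial : ℝ) ^ (6 * M ^ 2)) <
      (N.factorial : ℝ) ^ (6 * M ^ 2) := by
    rw [← mul_assoc]
    exact mul_lt_of_lt_one_left hfac h8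
  linarith

end Pool.Agent.Helper84.NQ
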