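import Pool.Agent.Helper84.PH.Perms

/-!
# Permutations for which a quarter of the nodes has nearly all nodes as children (project NQ, Q7)
-/

set_option autoImplicit false

namespace Pool.Agent.Helper84.NQ

open Finset
open Pool.Agent.Helper84.PH (into mem_into card_into)

theorem into_le' {N a : ℕ} (hN : 1 ≤ N) (X Y : Finset (Fin N)) (hX : N ≤ 4 * X.card) (hY : Y.card = a) :
    4 ^ a * (into Xᶜ Y).card ≤ 3 ^ a * N.factorial := by
  have h1 := card_into Xᶜ Y
  rw [hY] at h1
  have hXc : 4 * (Xᶜ).card ≤ 3 * N := by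
    have h2 : (Xᶜ).card + X.card = N := by
      rw [card_compl, Fintype.card_fin]
      have : X.card ≤ N := by simpa using card_le_univ X
      omega
    omega
  have hpos : 0 < N ^ a := Nat.pow_pos hN
  refine Nat.le_of_mul_le_mul_left ?_ hpos
  calc N ^ a * (4 ^ a * (into Xᶜ Y).card) = 4 ^ a * (N ^ a * (into Xᶜ Y).card) := by ring
    _ ≤ 4 ^ a * ((Xᶜ).card ^ a * N.factorial) := Nat.mul_le_mul_left _ h1
    _ = (4 * (Xᶜ).card) ^ a * N.factorial := by rw [mul_pow]; ring
    _ ≤ (3 * N) ^ a * N.factorial := Nat.mul_le_mul_right _ (Nat.pow_le_pow_left hXc _)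
    _ = N ^ a * (3 ^ a * N.factorial) := by rw [mul_pow]; ring

/-- Q7: the permutations. -/
theorem exists_perms5 (M a : ℕ) (hM : 1 ≤ M) (ha : 1 ≤ a) : ∃ g : Fin (5 * M ^ 2) → Equiv.Perm (Fin (M ^ 2 * a)),
    ∀ X : Finset (Fin (M ^ 2 * a)), M ^ 2 * a ≤ 4 * X.card →
      M ^ 2 * a ≤ (X.biUnion (fun u => univ.image (fun s => g s u))).card + a := by
  classical
  by_contra hcon
  push Not at hcon
  set N := M ^ 2 * a with hN
  have hM2 : 1 ≤ M ^ 2 := Nat.one_le_pow _ _ hM
  have hNpos : 1 ≤ N := Nat.mul_pos hM2 ha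
  set D := 5 * M ^ 2 with hD
  set I : Finset (Finset (Fin N) × Finset (Fin N)) := univ.filter (fun p => N ≤ 4 * p.1.card ∧ p.2.card = a)
    with hI
  have hcover : (univ : Finset (Fin D → Equiv.Perm (Fin N))) ⊆
      I.biUnion (fun p => Fintype.piFinset (fun _ : Fin D => into (p.1)ᶜ p.2)) := by
    intro g' _
    obtain ⟨X, hX, hlt⟩ := hcon (fun s => (g' s)⁻¹)
    set U := X.biUnion (fun u => univ.image (fun s => (g' s)⁻¹ u)) with hU
    have hUc : a ≤ (Uᶜ).card := by
      rw [card_compl, Fintype.card_fin]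
      omega
    obtain ⟨Y, hY, hYc⟩ := exists_subset_card_eq hUc
    rw [mem_biUnion]
    refine ⟨(X, Y), mem_filter.2 ⟨mem_univ _, hX, hYc⟩, ?_⟩
    rw [Fintype.mem_piFinset]
    intro s
    refine mem_into.2 fun y hy => mem_compl.2 fun h => ?_
    refine mem_compl.1 (hY hy) (mem_biUnion.2 ⟨g' s y, h, mem_image.2 ⟨s, mem_univ _, ?_⟩⟩)
    simp
  have h1 := (card_le_card hcover).trans card_biUnion_le
  have hu : (univ : Finset (Fin D → Equiv.Perm (Fin N))).card = N.factorial ^ D := by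
    rw [card_univ, Fintype.card_fun, Fintype.card_perm, Fintype.card_fin, Fintype.card_fin]
  rw [hu] at h1
  have h2 : 4 ^ (a * D) * N.factorial ^ D ≤ 4 ^ N * (3 ^ (a * D) * N.factorial ^ D) := by
    calc 4 ^ (a * D) * N.factorial ^ D
        ≤ 4 ^ (a * D) * ∑ p ∈ I, (Fintype.piFinset (fun _ : Fin D => into (p.1)ᶜ p.2)).card :=
          Nat.mul_le_mul_left _ h1
      _ = ∑ p ∈ I, 4 ^ (a * D) * (Fintype.piFinset (fun _ : Fin D => into (p.1)ᶜ p.2)).card := by rw [mul_sum]
      _ ≤ ∑ _p ∈ I, 3 ^ (a * D) * N.factorial ^ D := by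
          refine sum_le_sum fun p hp => ?_
          obtain ⟨-, h5, h6⟩ := mem_filter.1 hp
          rw [Fintype.card_piFinset]
          simp only [prod_const, card_univ, Fintype.card_fin]
          calc 4 ^ (a * D) * (into (p.1)ᶜ p.2).card ^ D = (4 ^ a * (into (p.1)ᶜ p.2).card) ^ D := by
                rw [mul_pow, ← pow_mul]
            _ ≤ (3 ^ a * N.factorial) ^ D := Nat.pow_le_pow_left (into_le' hNpos p.1 p.2 h5 h6) _
            _ = 3 ^ (a * D) * N.factorial ^ D := by rw [mul_pow, ← pow_mul]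
      _ = I.card * (3 ^ (a * D) * N.factorial ^ D) := by rw [sum_const, smul_eq_mul]
      _ ≤ 4 ^ N * (3 ^ (a * D) * N.factorial ^ D) := by
          refine Nat.mul_le_mul_right _ ?_
          calc I.card ≤ Fintype.card (Finset (Fin N) × Finset (Fin N)) := card_le_univ _
            _ = 4 ^ N := by
                rw [Fintype.card_prod, Fintype.card_finset, Fintype.card_fin, ← mul_pow]
                norm_num
  have h3 : 4 ^ (a * D) ≤ 4 ^ N * 3 ^ (a * D) := by
    refine Nat.le_of_mul_le_mul_right ?_ (Nat.pow_pos (n := D) (Nat.factorial_pos N))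
    calc 4 ^ (a * D) * N.factorial ^ D ≤ 4 ^ N * (3 ^ (a * D) * N.factorial ^ D) := h2
      _ = 4 ^ N * 3 ^ (a * D) * N.factorial ^ D := by ring
  have h4 : a * D = 5 * N := by rw [hD, hN]; ring
  rw [h4, pow_mul 4 5 N, pow_mul 3 5 N, ← mul_pow] at h3
  exact absurd h3 (not_le.2 (Nat.pow_lt_pow_left (by norm_num) (by omega)))

end Pool.Agent.Helper84.NQ
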