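import Pool.Agent.Helper99.NQ.Defs
import Pool.Agent.Helper84.NW.Row

/-!
# The deterministic program which keeps one row and reads the blocks symbol by symbol (project NQ)
-/

set_option autoImplicit false
set_option linter.unusedSectionVars false

namespace Pool.Agent.Helper84.NQ

open Pool.Agent.Helper74.NW Pool.Agent.Helper19.NF Pool.Agent.Helper99.NQ
open Pool.Agent.Helper74.NE (fine)
open Pool.Agent.Helper84.NW (Ins exec qs exec_append length_qs pre length_pre rows length_rows lastBlock script_program
  Mem shift exec_all)

section expand

variable {F B W M : Type} [Field F] [AddCommGroup W] [Module F W]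

/-- An instruction with a query of the word of the block `b`, replaced by the queries of the symbols `(b, w)` for the `w`
in a list. -/
def expand (p : Ins B W M) : List W → List (Ins (B × W) F (M × W))
  | [] => []
  | [w] => [(fun m => (p.1 m.1, w), fun m y => (p.2 m.1 (m.2 + y • w), 0))]
  | w :: w' :: L => (fun m => (p.1 m.1, w), fun m y => (m.1, m.2 + y • w)) :: expand p (w' :: L)

theorem length_expand (p : Ins B W M) (L : List W) : (expand (F := F) p L).length = L.length := by
  induction L with
  | nil => rfl
  | cons w L ih =>
    cases L with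
    | nil => rfl
    | cons w' L =>
      rw [expand, List.length_cons, ih, List.length_cons (a := w)]

theorem exec_expand (p : Ins B W M) (I : B × W → F) (L : List W) (hL : L ≠ []) (m : M) (v : W) :
    exec I (expand p L) (m, v) = (p.2 m (v + (L.map (fun w => I (p.1 m, w) • w)).sum), 0) := by
  induction L generalizing v with
  | nil => exact absurd rfl hL
  | cons w L ih =>
    cases L with
    | nil => simp [expand, exec]
    | cons w' L =>
      rw [expand, exec]
      change exec I (expand p (w' :: L)) (m, v + I (p.1 m, w) • w) = _
      rw [ih (List.cons_ne_nil _ _), List.map_cons (l := w' :: L), List.sum_cons, add_assoc]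

theorem exec_flat (I : B × W → F) (L : List W) (hL : L ≠ []) (A : List (Ins B W M)) (m : M) :
    exec I (A.flatMap (fun p => expand p L)) (m, 0) =
      (exec (fun b => (L.map (fun w => I (b, w) • w)).sum) A m, 0) := by
  induction A generalizing m with
  | nil => rfl
  | cons p A ih =>
    rw [List.flatMap_cons, exec_append, exec_expand p I L hL m 0, zero_add, ih]
    rfl

theorem length_flat (L : List W) (A : List (Ins B W M)) :
    (A.flatMap (fun p => expand (F := F) p L)).length = A.length * L.length := by
  induction A with
  | nil => simp
  | cons p A ih =>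
    rw [List.flatMap_cons, List.length_append, length_expand, ih, List.length_cons]
    ring

end expand

/-- The row program which queries symbols. -/
theorem row_symbols {n D m : ℕ} [NeZero m] {F B : Type} [Field F] [AddCommGroup B] [Module F B] [Fintype B]
    (g : Fin D → Equiv.Perm (Fin n)) (x0 : Fin n × Fin m → B) (R : ℕ) (c : Fin D × Fin m) (hn : 1 ≤ n) :
    ∃ S ≤ ((R + 1) * (n * m) * Fintype.card (Word D m B) + 1) *
        (Fintype.card B ^ (2 * (n * m)) * Fintype.card (Word D m B)),
      ∃ P : NProg (B × Word D m B) F B S,
        (∀ s b next, P.act s = Sum.inl (b, next) → ∀ w, ∃ t, next w = {t}) ∧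
        ∀ I, ∃ l, P.Ends I l (res (fine g) x0 R c (tab I)) ∧
          (∀ l' z, P.Ends I l' z → l' = l ∧ z = res (fine g) x0 R c (tab I)) ∧
          l.length = (R + 1) * (n * m) * Fintype.card (Word D m B) := by
  classical
  have : NeZero n := ⟨by omega⟩
  let u₀ : Fin n × Fin m := 0
  let A : List (Ins B (Word D m B) (Mem (Fin n × Fin m) B)) := rows (fine g) R ++ pre shift (lastBlock c u₀)
  let L : List (Word D m B) := (Finset.univ : Finset (Word D m B)).toList
  have hL : L ≠ [] := by
    intro h
    have h1 : (Finset.univ : Finset (Word D m B)) = ∅ := Finset.toList_eq_nil.mp h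
    exact absurd (Finset.mem_univ (0 : Word D m B)) (by rw [h1]; exact Finset.notMem_empty _)
  have hLlen : L.length = Fintype.card (Word D m B) := by rw [Finset.length_toList, Finset.card_univ]
  have hU : Fintype.card (Fin n × Fin m) = n * m := by
    rw [Fintype.card_prod, Fintype.card_fin, Fintype.card_fin]
  have hA : A.length = (R + 1) * (n * m) := by
    rw [List.length_append, length_rows, length_pre, lastBlock, List.length_map, Finset.length_toList,
      Finset.card_univ, hU]
    ring
  have hlen : (A.flatMap (fun p => expand (F := F) p L)).length =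
      (R + 1) * (n * m) * Fintype.card (Word D m B) := by
    rw [length_flat, hA, hLlen]
  obtain ⟨P, hP, h⟩ := script_program (A.flatMap (fun p => expand (F := F) p L))
    (((0, x0), 0) : Mem (Fin n × Fin m) B × Word D m B) (fun m => m.1.2 u₀)
  have hex : ∀ I : B × Word D m B → F,
      (exec I (A.flatMap (fun p => expand (F := F) p L)) (((0, x0), 0) : Mem (Fin n × Fin m) B × Word D m B)).1.2 u₀ =
        res (fine g) x0 R c (tab I) := by
    intro I
    rw [exec_flat I L hL]
    have h1 : (fun b => (L.map (fun w => I (b, w) • w)).sum) = tab I := by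
      funext b
      rw [Finset.sum_map_toList]
      rfl
    rw [h1]
    exact exec_all (fine g) x0 (tab I) R c u₀
  refine ⟨_, le_of_eq ?_, P, hP, fun I => ⟨_, hex I ▸ h I, fun l' z hl' => ?_, ?_⟩⟩
  · have h1 : Fintype.card (Fin n × Fin m → B) = Fintype.card B ^ (n * m) := by rw [Fintype.card_fun, hU]
    have h2 : Fintype.card (Mem (Fin n × Fin m) B × Word D m B) =
        Fintype.card B ^ (2 * (n * m)) * Fintype.card (Word D m B) := by
      rw [Fintype.card_prod (Mem (Fin n × Fin m) B), Fintype.card_prod (Fin n × Fin m → B), h1, ← pow_add, two_mul]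
    rw [hlen, h2]
  · obtain ⟨t, h1, h2⟩ := h I
    obtain ⟨t', h1', h2'⟩ := hl'
    simp only [hex] at h2
    exact hP.unique h1 h2 h1' h2'
  · rw [length_qs, hlen]

end Pool.Agent.Helper84.NQ
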